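import Pool.Agent.Run7.h207.GC.Iface

set_option autoImplicit false

/-! Piece BIN of the project GC of helper207: the lower tail of the binomial distribution. -/

namespace Pool.Agent.Run7.h547.GC

open Finset
open Pool.Agent.H162R2.AG

/-- the variance of the binomial distribution -/
theorem var (N : ℕ) : ∑ k ∈ range (N + 1), ((N : ℝ) / 2 - k) ^ 2 * (N.choose k : ℝ) =
    (N : ℝ) / 4 * 2 ^ N := by
  have h := congrArg (Polynomial.eval (1 / 2 : ℝ)) (bernsteinPolynomial.variance ℝ N)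
  rw [Polynomial.eval_finsetSum] at h
  simp only [Polynomial.eval_mul, Polynomial.eval_pow, Polynomial.eval_sub,
    Polynomial.eval_X, Polynomial.eval_natCast, Polynomial.eval_one, nsmul_eq_mul] at h
  have h2 : ∀ k ∈ range (N + 1), (bernsteinPolynomial ℝ N k).eval (1 / 2 : ℝ) = (N.choose k : ℝ) / 2 ^ N := by
    intro k hk
    have hk' : k ≤ N := by have := mem_range.1 hk; omega
    unfold bernsteinPolynomial
    simp only [Polynomial.eval_mul, Polynomial.eval_pow, Polynomial.eval_sub, Polynomial.eval_X,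
      Polynomial.eval_one, Polynomial.eval_natCast]
    have h3 : (1 - 1 / 2 : ℝ) = 1 / 2 := by norm_num
    rw [h3, mul_assoc, ← pow_add, Nat.add_sub_cancel' hk', one_div, inv_pow]
    rfl
  have h3 : ∑ k ∈ range (N + 1), ((N : ℝ) / 2 - k) ^ 2 * (N.choose k : ℝ) =
      2 ^ N * ∑ k ∈ range (N + 1), ((N : ℝ) * (1 / 2) - k) ^ 2 * (bernsteinPolynomial ℝ N k).eval (1 / 2 : ℝ) := by
    rw [Finset.mul_sum]
    refine Finset.sum_congr rfl fun k hk => ?_
    rw [h2 k hk]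
    have : (2 : ℝ) ^ N ≠ 0 := by positivity
    field_simp
  rw [h3, h]
  ring

/-- Chebyshev -/
theorem window (N : ℕ) (hN : 1 ≤ N) :
    3 / 4 * (2 : ℝ) ^ N ≤ ∑ k ∈ (range (N + 1)).filter (fun k : ℕ => |(N : ℝ) / 2 - k| ≤ √N), (N.choose k : ℝ) := by
  classical
  have hN0 : (0 : ℝ) < N := by exact_mod_cast hN
  have h1 := Finset.sum_filter_add_sum_filter_not (range (N + 1))
    (fun k : ℕ => |(N : ℝ) / 2 - k| ≤ √N) (fun k => (N.choose k : ℝ))
  have h2 : ∑ k ∈ range (N + 1), (N.choose k : ℝ) = 2 ^ N := by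
    exact_mod_cast Nat.sum_range_choose N
  have h3 : (N : ℝ) * ∑ k ∈ (range (N + 1)).filter (fun k : ℕ => ¬ |(N : ℝ) / 2 - k| ≤ √N), (N.choose k : ℝ) ≤
      N / 4 * 2 ^ N := by
    rw [← var N, Finset.mul_sum]
    refine (Finset.sum_le_sum fun k hk => ?_).trans
      (Finset.sum_le_sum_of_subset_of_nonneg (filter_subset _ _) fun k _ _ => by positivity)
    rw [mem_filter] at hk
    have h4 : √(N : ℝ) < |(N : ℝ) / 2 - k| := not_le.1 hk.2
    have h5 : (N : ℝ) ≤ ((N : ℝ) / 2 - k) ^ 2 := by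
      have h5' := pow_le_pow_left₀ (Real.sqrt_nonneg (N : ℝ)) h4.le 2
      rwa [Real.sq_sqrt hN0.le, sq_abs] at h5'
    exact mul_le_mul_of_nonneg_right h5 (Nat.cast_nonneg _)
  have h6 : ∑ k ∈ (range (N + 1)).filter (fun k : ℕ => ¬ |(N : ℝ) / 2 - k| ≤ √N), (N.choose k : ℝ) ≤
      1 / 4 * 2 ^ N := by
    have h7 : (N : ℝ) * ∑ k ∈ (range (N + 1)).filter (fun k : ℕ => ¬ |(N : ℝ) / 2 - k| ≤ √N), (N.choose k : ℝ) ≤
        N * (1 / 4 * 2 ^ N) := by linarith
    exact le_of_mul_le_mul_left h7 hN0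
  linarith

theorem ratio (N : ℕ) (hN : 1 ≤ N) (m : ℝ) (hm : 0 ≤ m) (hρ : 4 * m ≤ √N) (j : ℕ)
    (hj : (N : ℝ) / 2 - m * √N ≤ j) (r : ℕ) :
    (1 - 4 * m / √N) ^ r * (N.choose (j + r) : ℝ) ≤ N.choose j := by
  have hN0 : (0 : ℝ) < N := by exact_mod_cast hN
  have hs : 0 < √(N : ℝ) := Real.sqrt_pos.2 hN0
  have hsq : √(N : ℝ) * √N = N := Real.mul_self_sqrt hN0.le
  have hρ0 : 0 ≤ 1 - 4 * m / √N := by
    have : 4 * m / √(N : ℝ) ≤ 1 := by rw [div_le_one hs]; exact hρ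
    linarith
  induction r with
  | zero => simp
  | succ r ih =>
    refine le_trans ?_ ih
    rw [pow_succ, mul_assoc]
    refine mul_le_mul_of_nonneg_left ?_ (pow_nonneg hρ0 r)
    set i := j + r with hi
    have hij : (N : ℝ) / 2 - m * √N ≤ i := by
      have : (j : ℝ) ≤ i := by rw [hi]; push_cast; linarith [Nat.cast_nonneg (α := ℝ) r]
      linarith
    show (1 - 4 * m / √N) * (N.choose (i + 1) : ℝ) ≤ N.choose i
    have h1 : (N.choose (i + 1) : ℝ) * ((i : ℝ) + 1) = N.choose i * ((N - i : ℕ) : ℝ) := by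
      exact_mod_cast Nat.choose_succ_right_eq N i
    have h2 : ((N - i : ℕ) : ℝ) ≤ N / 2 + m * √N := by
      rcases Nat.lt_or_ge N i with h | h
      · rw [Nat.sub_eq_zero_of_le h.le, Nat.cast_zero]; positivity
      · rw [Nat.cast_sub h]; linarith
    have h3 : (1 - 4 * m / √N) * ((N - i : ℕ) : ℝ) ≤ (i : ℝ) + 1 := by
      have h4 : (1 - 4 * m / √N) * ((N - i : ℕ) : ℝ) ≤ (1 - 4 * m / √N) * (N / 2 + m * √N) :=
        mul_le_mul_of_nonneg_left h2 hρ0
      have h5 : (1 - 4 * m / √N) * (N / 2 + m * √N) = N / 2 - m * √N - 4 * m ^ 2 := by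
        have h6 : 4 * m / √N * (N / 2 + m * √N) = 2 * m * √N + 4 * m ^ 2 := by
          rw [div_mul_eq_mul_div, div_eq_iff hs.ne']
          linear_combination (-(2 * m)) * hsq
        linear_combination -h6
      nlinarith [sq_nonneg m]
    have hi1 : (0 : ℝ) < (i : ℝ) + 1 := by positivity
    have hc0 : (0 : ℝ) ≤ N.choose i := Nat.cast_nonneg _
    have h7 : (1 - 4 * m / √N) * (N.choose (i + 1) : ℝ) * ((i : ℝ) + 1) ≤ N.choose i * ((i : ℝ) + 1) := by
      calc (1 - 4 * m / √N) * (N.choose (i + 1) : ℝ) * ((i : ℝ) + 1)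
          = (1 - 4 * m / √N) * ((N.choose (i + 1) : ℝ) * ((i : ℝ) + 1)) := by ring
        _ = N.choose i * ((1 - 4 * m / √N) * ((N - i : ℕ) : ℝ)) := by rw [h1]; ring
        _ ≤ N.choose i * ((i : ℝ) + 1) := mul_le_mul_of_nonneg_left h3 hc0
    exact le_of_mul_le_mul_right h7 hi1

theorem exp_le {x : ℝ} (h0 : 0 ≤ x) (h1 : x ≤ 1 / 2) : Real.exp (-(2 * x)) ≤ 1 - x := by
  have h2 : 1 + 2 * x ≤ Real.exp (2 * x) := by linarith [Real.add_one_le_exp (2 * x)]
  rw [Real.exp_neg, inv_le_comm₀ (Real.exp_pos _) (by linarith)]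
  refine le_trans ?_ h2
  rw [inv_le_iff_one_le_mul₀ (by linarith)]
  nlinarith

theorem cnt_ge (N : ℕ) (τ : ℝ) (K : Finset ℕ) (hK : ∀ k ∈ K, (k : ℝ) ≤ τ) :
    ∑ k ∈ K, (N.choose k : ℝ) ≤ cnt (fun s : Finset (Fin N) => (s.card : ℝ) ≤ τ) := by
  classical
  unfold cnt
  have h1 : ∑ k ∈ K, (N.choose k : ℝ) =
      (((K.biUnion fun k => powersetCard k (univ : Finset (Fin N))).card : ℕ) : ℝ) := by
    rw [Finset.card_biUnion]
    · push_cast
      refine Finset.sum_congr rfl fun k _ => ?_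
      rw [card_powersetCard, card_univ, Fintype.card_fin]
    · intro k _ k' _ hkk'
      rw [Function.onFun, Finset.disjoint_left]
      intro s hs hs'
      rw [mem_powersetCard] at hs hs'
      exact hkk' (hs.2.symm.trans hs'.2)
  rw [h1]
  refine Nat.cast_le.2 (card_le_card fun s hs => ?_)
  rw [mem_biUnion] at hs
  obtain ⟨k, hk, hs⟩ := hs
  rw [mem_powersetCard] at hs
  rw [mem_filter]
  exact ⟨mem_univ _, by rw [hs.2]; exact hK k hk⟩

theorem t_BIN : Pool.Agent.Run7.h207.GC.J_BIN := by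
  classical
  intro C
  set c : ℝ := |C| + 2 with hc
  set m : ℝ := c + 1 with hm
  have hC0 : 0 ≤ |C| := abs_nonneg C
  refine ⟨3 / 4 * Real.exp (-(8 * m * c)), by positivity, ⌈(8 * m) ^ 2⌉₊ + 1, fun N hN => ?_⟩
  have hN1 : 1 ≤ N := by omega
  have hN0 : (0 : ℝ) < N := by exact_mod_cast hN1
  have hs : 0 < √(N : ℝ) := Real.sqrt_pos.2 hN0
  have hs1 : 1 ≤ √(N : ℝ) := by rw [Real.one_le_sqrt]; exact_mod_cast hN1
  have hsq : √(N : ℝ) * √N = N := Real.mul_self_sqrt hN0.le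
  have h8 : 8 * m ≤ √N := by
    refine Real.le_sqrt_of_sq_le ?_
    have h1 : (8 * m) ^ 2 ≤ (⌈(8 * m) ^ 2⌉₊ : ℝ) := Nat.le_ceil _
    have h2 : ((⌈(8 * m) ^ 2⌉₊ + 1 : ℕ) : ℝ) ≤ N := by exact_mod_cast hN
    push_cast at h2
    linarith
  set t : ℕ := ⌈(|C| + 1) * √N⌉₊ with ht
  have ht1 : (|C| + 1) * √N ≤ t := Nat.le_ceil _
  have ht2 : (t : ℝ) ≤ c * √N := by
    have h1 : (t : ℝ) < (|C| + 1) * √N + 1 := Nat.ceil_lt_add_one (by positivity)
    have h2 : c * √N = (|C| + 1) * √N + √N := by rw [hc]; ring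
    linarith
  set W := (range (N + 1)).filter (fun k : ℕ => |(N : ℝ) / 2 - k| ≤ √N) with hW
  have hWk : ∀ k ∈ W, (N : ℝ) / 2 - √N ≤ k ∧ (k : ℝ) ≤ N / 2 + √N := by
    intro k hk
    rw [hW, mem_filter, abs_le] at hk
    constructor <;> linarith [hk.2.1, hk.2.2]
  have hmc : m * √N ≤ N / 8 := by
    have : 8 * m * √N ≤ √N * √N := mul_le_mul_of_nonneg_right h8 hs.le
    rw [hsq] at this
    linarith
  have hkt : ∀ k ∈ W, t ≤ k := by
    intro k hk
    have h1 := (hWk k hk).1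
    have h2 : (t : ℝ) ≤ k := by
      have h3 : m * √N = c * √N + √N := by rw [hm]; ring
      have h4 : 0 ≤ c * √N := by positivity
      linarith
    exact_mod_cast h2
  have hinj : Set.InjOn (fun k => k - t) (W : Set ℕ) := by
    intro k hk k' hk' h
    have h1 := hkt k hk
    have h2 := hkt k' hk'
    simp only at h
    omega
  have h1 := cnt_ge N ((N : ℝ) / 2 - C * √N) (W.image fun k => k - t) (fun k hk => by
    rw [mem_image] at hk
    obtain ⟨k', hk', rfl⟩ := hk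
    rw [Nat.cast_sub (hkt k' hk')]
    have h2 := (hWk k' hk').2
    have h3 : C * √N ≤ |C| * √N := mul_le_mul_of_nonneg_right (le_abs_self C) hs.le
    have h4 : (|C| + 1) * √N = |C| * √N + √N := by ring
    linarith)
  rw [Finset.sum_image hinj] at h1
  refine le_trans ?_ h1
  have h2 := window N hN1
  have hx : 4 * m / √N ≤ 1 / 2 := by rw [div_le_iff₀ hs]; linarith
  have hx0 : 0 ≤ 4 * m / √N := by positivity
  have hρ : Real.exp (-(8 * m * c)) ≤ (1 - 4 * m / √N) ^ t := by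
    calc Real.exp (-(8 * m * c)) ≤ Real.exp (-(2 * (4 * m / √N))) ^ t := by
          rw [← Real.exp_nat_mul]
          refine Real.exp_le_exp.2 ?_
          have h3 : (t : ℝ) * (2 * (4 * m / √N)) ≤ c * √N * (2 * (4 * m / √N)) :=
            mul_le_mul_of_nonneg_right ht2 (by positivity)
          have h4 : c * √N * (2 * (4 * m / √N)) = 8 * m * c := by field_simp; ring
          linarith
      _ ≤ (1 - 4 * m / √N) ^ t := pow_le_pow_left₀ (Real.exp_pos _).le (exp_le hx0 hx) t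
  calc 3 / 4 * Real.exp (-(8 * m * c)) * 2 ^ N = Real.exp (-(8 * m * c)) * (3 / 4 * 2 ^ N) := by ring
    _ ≤ Real.exp (-(8 * m * c)) * ∑ k ∈ W, (N.choose k : ℝ) :=
        mul_le_mul_of_nonneg_left h2 (Real.exp_pos _).le
    _ = ∑ k ∈ W, Real.exp (-(8 * m * c)) * (N.choose k : ℝ) := Finset.mul_sum _ _ _
    _ ≤ ∑ k ∈ W, (N.choose (k - t) : ℝ) := by
        refine Finset.sum_le_sum fun k hk => ?_
        have h3 := hkt k hk
        have h4 := ratio N hN1 m (by positivity) (by linarith) (k - t) (by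
          rw [Nat.cast_sub h3]
          have h5 := (hWk k hk).1
          have h6 : m * √N = c * √N + √N := by rw [hm]; ring
          linarith) t
        rw [Nat.sub_add_cancel h3] at h4
        exact (mul_le_mul_of_nonneg_right hρ (Nat.cast_nonneg _)).trans h4

end Pool.Agent.Run7.h547.GC
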