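import Pool.Agent.Run7.h207.GC.Iface

set_option autoImplicit false

/-! Piece FTH of the project GC of helper207: faithful regular orthogonal representations. -/

namespace Pool.Agent.Run7.h547.GC

open Finset Matrix
open Pool.Agent.Run7.h207.GC

section
variable {V : Type} {H : SimpleGraph V} {d : ℕ}

theorem reg_tail {w : V → Fin d → ℝ} {i : V} {l : List V} (h : Reg H w (i :: l)) : Reg H w l :=
  ⟨fun a ha b hb hab => h.1 a (List.mem_cons_of_mem _ ha) b (List.mem_cons_of_mem _ hb) hab, h.2.1⟩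

theorem reg_mem {Im : List V → Set (V → Fin d → ℝ)} (hI : IsIm H d Im) (w : V → Fin d → ℝ) :
    ∀ l : List V, l.Nodup → Reg H w l → w ∈ Im l
  | [], _, _ => hI.nil w
  | i :: l, hn, h => by
    rw [List.nodup_cons] at hn
    exact hI.step i l w hn.1 (reg_mem hI w l hn.2 (reg_tail h)) h.2.2 fun j hj hij =>
      h.1 i List.mem_cons_self j (List.mem_cons_of_mem _ hj) hij

theorem zero_ext {Im : List V → Set (V → Fin d → ℝ)} (hI : IsIm H d Im) (w : V → Fin d → ℝ) (s : List V)
    (hs : w ∈ Im s) : ∀ m : List V, (m ++ s).Nodup → (∀ i ∈ m, w i = 0) → w ∈ Im (m ++ s)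
  | [], _, _ => hs
  | i :: m, hn, h => by
    rw [List.cons_append, List.nodup_cons] at hn
    exact hI.zero i (m ++ s) w hn.1
      (zero_ext hI w s hs m hn.2 fun j hj => h j (List.mem_cons_of_mem _ hj)) (h i List.mem_cons_self)

theorem adm_of : ∀ l : List V, l.Nodup → (∀ i l₁, (i :: l₁) <:+ l → (nbl H l₁ i).card + 1 ≤ d) → Adm H d l
  | [], _, _ => trivial
  | i :: l, hn, h => by
    rw [List.nodup_cons] at hn
    exact ⟨hn.1, h i l (List.suffix_refl _), adm_of l hn.2 fun j l₁ hl => h j l₁ (hl.trans (List.suffix_cons _ _))⟩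

/-- a vector orthogonal to the members of a family and not to a vector outside its span -/
theorem exists_orth (S : Set (Fin d → ℝ)) (v : Fin d → ℝ) (hv : v ∉ Submodule.span ℝ S) :
    ∃ z : Fin d → ℝ, z ⬝ᵥ v ≠ 0 ∧ ∀ s ∈ S, z ⬝ᵥ s = 0 := by
  obtain ⟨f, hf, hle⟩ := Submodule.exists_le_ker_of_notMem hv
  have hz : ∀ x : Fin d → ℝ, (fun a => f (Pi.single a 1)) ⬝ᵥ x = f x := by
    intro x
    have h1 : x = ∑ a, x a • (Pi.single a 1 : Fin d → ℝ) := by
      ext b
      rw [Finset.sum_apply, Finset.sum_eq_single b]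
      · simp
      · intro a _ hab; simp [hab.symm]
      · intro h; exact absurd (mem_univ b) h
    conv_rhs => rw [h1]
    rw [map_sum, dotProduct]
    refine Finset.sum_congr rfl fun a _ => ?_
    rw [map_smul, smul_eq_mul, mul_comm]
  refine ⟨fun a => f (Pi.single a 1), ?_, fun s hs => ?_⟩
  · rw [hz]; exact hf
  · rw [hz]
    exact hle (Submodule.subset_span hs)

theorem dgP_insert (D : Finset V) (i a : V) (P Q : V → Prop)
    (h : ∀ j ∈ D, H.Adj i j → P j → j = a ∨ Q j) : dgP H D i P ≤ dgP H D i Q + 1 := by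
  classical
  unfold dgP
  refine le_trans ?_ (card_insert_le a _)
  refine card_le_card fun j hj => ?_
  simp only [mem_filter, mem_insert] at hj ⊢
  rcases h j hj.1 hj.2.1 hj.2.2 with h1 | h1
  · exact Or.inl h1
  · exact Or.inr ⟨hj.1, hj.2.1, h1⟩

theorem dgP_le (D : Finset V) (i : V) (P Q : V → Prop)
    (h : ∀ j ∈ D, H.Adj i j → P j → Q j) : dgP H D i P ≤ dgP H D i Q := by
  classical
  unfold dgP
  refine card_le_card fun j hj => ?_
  simp only [mem_filter] at hj ⊢
  exact ⟨hj.1, hj.2.1, h j hj.1 hj.2.1 hj.2.2⟩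

theorem nbl_dgP [Fintype V] (l : List V) (i : V) (Q : V → Prop)
    (h : ∀ j ∈ l, H.Adj i j → Q j) : (nbl H l i).card ≤ dgP H univ i Q := by
  classical
  unfold dgP
  refine card_le_card fun j hj => ?_
  rw [mem_nbl] at hj
  simp only [mem_filter, mem_univ, true_and]
  exact ⟨hj.2, h j hj.1 hj.2⟩

end

theorem t_FTH : J_IM → J_PC → J_STEP → J_FTH := by
  classical
  intro hIM hPC hSTEP V _ H d hd hcard hHG hHQ
  obtain ⟨Im, hI⟩ := hIM V H d
  obtain ⟨hP1, hP2, hP3, hP4, hP5⟩ := hPC V d
  let big : V → Prop := fun j => d ≤ (nbr H univ j).card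
  have other : ∀ i : V, ∃ z : V, z ≠ i := fun i => by
    have : 1 < Fintype.card V := by omega
    obtain ⟨z, hz⟩ := Fintype.exists_ne_of_one_lt_card this i
    exact ⟨z, hz⟩
  set l : List V := (univ.filter fun j => ¬ big j).toList ++ (univ.filter fun j => big j).toList with hl
  have hln : l.Nodup := by
    rw [hl, List.nodup_append]
    refine ⟨nodup_toList _, nodup_toList _, fun a ha b hb hab => ?_⟩
    rw [mem_toList, mem_filter] at ha hb
    exact ha.2 (hab ▸ hb.2)
  have hlm : ∀ i, i ∈ l := by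
    intro i
    rw [hl, List.mem_append, mem_toList, mem_toList, mem_filter, mem_filter]
    by_cases h : big i
    · exact Or.inr ⟨mem_univ _, h⟩
    · exact Or.inl ⟨mem_univ _, h⟩
  -- the list is admissible
  have hsuf : ∀ i l₁, (i :: l₁) <:+ l → big i → ∀ j ∈ l₁, big j := by
    intro i l₁ hs hi j hj
    obtain ⟨m, hm⟩ := hs
    rw [hl] at hm
    rcases List.append_eq_append_iff.1 hm with ⟨a, ha1, ha2⟩ | ⟨a, ha1, ha2⟩
    · -- i in the first part or a is empty
      cases a with
      | nil =>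
        rw [List.nil_append] at ha2
        have : j ∈ (univ.filter fun j => big j).toList := by rw [← ha2]; exact List.mem_cons_of_mem _ hj
        rw [mem_toList, mem_filter] at this
        exact this.2
      | cons b a =>
        rw [List.cons_append, List.cons.injEq] at ha2
        have : i ∈ (univ.filter fun j => ¬ big j).toList := by
          rw [ha1, ← ha2.1]; simp
        rw [mem_toList, mem_filter] at this
        exact absurd hi this.2
    · have : j ∈ (univ.filter fun j => big j).toList := by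
        rw [ha2]; exact List.mem_append_right _ (List.mem_cons_of_mem _ hj)
      rw [mem_toList, mem_filter] at this
      exact this.2
  have hbig : ∀ i, big i → ∀ z, z ≠ i → dgP H univ i (fun j => H.Adj z j ∨ H.Adj z j ∨ big j) + 2 ≤ d := by
    intro i hi z hz
    rcases hHQ z (mem_univ _) z (mem_univ _) i (mem_univ _) hz.symm hz.symm with h | h
    · have : d ≤ (nbr H univ i).card := hi
      omega
    · exact h
  have hadm0 : ∀ i l₁, (i :: l₁) <:+ l → (nbl H l₁ i).card + 1 ≤ d := by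
    intro i l₁ hs
    by_cases hi : big i
    · obtain ⟨z, hz⟩ := other i
      have h1 := hbig i hi z hz
      have h2 : (nbl H l₁ i).card ≤ dgP H univ i (fun j => H.Adj z j ∨ H.Adj z j ∨ big j) :=
        nbl_dgP _ _ _ fun j hj _ => Or.inr (Or.inr (hsuf i l₁ hs hi j hj))
      omega
    · have h1 : (nbr H univ i).card < d := not_le.1 hi
      have h2 : (nbl H l₁ i).card ≤ (nbr H univ i).card := by
        refine card_le_card fun j hj => ?_
        rw [mem_nbl] at hj
        rw [mem_nbr]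
        exact ⟨mem_univ _, hj.2⟩
      omega
  have hadm : ∀ l₁, l₁ <:+ l → Adm H d l₁ := fun l₁ hs =>
    adm_of l₁ (hln.sublist hs.sublist) fun i l₂ h => hadm0 i l₂ (h.trans hs)
  -- the witness for LIC
  have hLIC : ∃ w ∈ Im l, LIC H w l := by
    obtain ⟨w, hw, -⟩ := hSTEP V H d univ hHG hHQ l (hadm l (List.suffix_refl _)) (fun i _ => mem_univ _) ∅
      (fun i hi => absurd hi (notMem_empty i)) (by simp) (fun i _ => by
        obtain ⟨z, hz⟩ := other i
        rcases hHQ z (mem_univ _) z (mem_univ _) i (mem_univ _) hz.symm hz.symm with h | h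
        · exact Or.inl h
        · right
          have h2 : dgP H univ i (fun j => j ∈ (∅ : Finset V) ∨ d ≤ (nbr H univ j).card) ≤
              dgP H univ i (fun j => H.Adj z j ∨ H.Adj z j ∨ d ≤ (nbr H univ j).card) :=
            dgP_le _ _ _ _ fun j _ _ h3 => Or.inr (Or.inr (h3.resolve_left (notMem_empty j)))
          omega)
    exact ⟨w, reg_mem hI w l hln hw, hw.2⟩
  -- the witness for a pair, in the order of the list
  have hpair : ∀ (m l₁ : List V) (k j : V), l = m ++ k :: l₁ → j ∈ l₁ → ¬ H.Adj k j →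
      ∃ w ∈ Im l, w k ⬝ᵥ w j ≠ 0 := by
    intro m l₁ k j hm hj hkj
    have hs1 : (k :: l₁) <:+ l := ⟨m, hm.symm⟩
    have hs2 : l₁ <:+ l := (List.suffix_cons _ _).trans hs1
    have hn1 : (k :: l₁).Nodup := hln.sublist hs1.sublist
    rw [List.nodup_cons] at hn1
    have hjk : j ≠ k := fun h => hn1.1 (h ▸ hj)
    obtain ⟨w, hw, hwS⟩ := hSTEP V H d univ hHG hHQ l₁ (hadm l₁ hs2) (fun i _ => mem_univ _)
      (insert j (nbl H l₁ k)) (fun i hi => by
        rw [mem_insert, mem_nbl] at hi
        rcases hi with h | h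
        · exact h ▸ hj
        · exact h.1) ((card_insert_le _ _).trans (hadm0 k l₁ hs1)) (fun q hq => by
        have hqk : q ≠ k := fun h => hn1.1 (h ▸ hq)
        rcases hHQ k (mem_univ _) k (mem_univ _) q (mem_univ _) hqk hqk with h | h
        · exact Or.inl h
        · right
          have h2 : dgP H univ q (fun i => i ∈ insert j (nbl H l₁ k) ∨ d ≤ (nbr H univ i).card) ≤
              dgP H univ q (fun i => H.Adj k i ∨ H.Adj k i ∨ d ≤ (nbr H univ i).card) + 1 := by
            refine dgP_insert _ _ j _ _ fun i _ _ h3 => ?_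
            rcases h3 with h3 | h3
            · rw [mem_insert, mem_nbl] at h3
              rcases h3 with h3 | h3
              · exact Or.inl h3
              · exact Or.inr (Or.inl h3.2)
            · exact Or.inr (Or.inr (Or.inr h3))
          omega)
    have hjn : j ∉ nbl H l₁ k := fun h => hkj (mem_nbl.1 h).2
    have hspan : w j ∉ Submodule.span ℝ (w '' (nbl H l₁ k : Set V)) := by
      have h1 : LinearIndepOn ℝ w (insert j (nbl H l₁ k : Set V)) := by
        have := hwS
        unfold LI at this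
        rwa [coe_insert] at this
      exact (linearIndepOn_insert (by exact_mod_cast hjn)).1 h1 |>.2
    obtain ⟨z, hz1, hz2⟩ := exists_orth _ _ hspan
    let w₁ : V → Fin d → ℝ := fun v => if v ∈ l₁ then w v else if v = k then z else 0
    have e1 : ∀ v ∈ l₁, w₁ v = w v := fun v hv => if_pos hv
    have e2 : w₁ k = z := by simp only [w₁, if_neg hn1.1, if_true]
    have e3 : ∀ v, v ∉ k :: l₁ → w₁ v = 0 := by
      intro v hv
      rw [List.mem_cons, not_or] at hv
      simp only [w₁, if_neg hv.2, if_neg hv.1]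
    have h1 : w₁ ∈ Im l₁ := hI.congr l₁ w w₁ (reg_mem hI w l₁ hn1.2 hw) e1
    have h2 : w₁ ∈ Im (k :: l₁) := by
      refine hI.step k l₁ w₁ hn1.1 h1 ?_ fun i hi hki => ?_
      · have h3 : LinearIndepOn ℝ w (nbl H l₁ k : Set V) :=
          LinearIndepOn.mono (show LinearIndepOn ℝ w ((insert j (nbl H l₁ k) : Finset V) : Set V) from hwS)
            (Finset.coe_subset.2 (subset_insert _ _))
        unfold LI
        refine h3.congr fun v hv => ?_
        exact (e1 v (mem_nbl.1 (by exact_mod_cast hv)).1).symm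
      · rw [e2, e1 i hi]
        exact hz2 _ ⟨i, by exact_mod_cast mem_nbl.2 ⟨hi, hki⟩, rfl⟩
    have h3 : w₁ ∈ Im l := by
      rw [hm]
      refine zero_ext hI w₁ (k :: l₁) h2 m (hm ▸ hln) fun i hi => e3 i fun h => ?_
      have hn := hln
      rw [hm, List.nodup_append] at hn
      exact hn.2.2 i hi i h rfl
    exact ⟨w₁, h3, by rw [e2, e1 j hj]; exact hz1⟩
  have hpair' : ∀ i j : V, i ≠ j → ¬ H.Adj i j → ∃ w ∈ Im l, w i ⬝ᵥ w j ≠ 0 := by
    intro i j hij hadj
    obtain ⟨m, l₁, hm⟩ := List.append_of_mem (hlm i)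
    have hj := hlm j
    rw [hm, List.mem_append, List.mem_cons] at hj
    rcases hj with h | h | h
    · -- j comes before i in the list
      obtain ⟨m₁, m₂, hm'⟩ := List.append_of_mem h
      have hm2 : l = m₁ ++ j :: (m₂ ++ i :: l₁) := by rw [hm, hm']; simp
      obtain ⟨w, hw, hw2⟩ := hpair m₁ (m₂ ++ i :: l₁) j i hm2 (by simp) fun h => hadj h.symm
      exact ⟨w, hw, by rw [dotProduct_comm]; exact hw2⟩
    · exact absurd h.symm hij
    · exact hpair m l₁ i j hm h hadj
  -- all conditions together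
  have hall : ∀ P : Finset (V × V), (∀ p ∈ P, p.1 ≠ p.2 ∧ ¬ H.Adj p.1 p.2) →
      PC (fun w : V → Fin d → ℝ => LIC H w l ∧ ∀ p ∈ P, w p.1 ⬝ᵥ w p.2 ≠ 0) ∧
      ∃ w ∈ Im l, LIC H w l ∧ ∀ p ∈ P, w p.1 ⬝ᵥ w p.2 ≠ 0 := by
    intro P
    induction P using Finset.induction_on with
    | empty =>
      intro _
      refine ⟨?_, ?_⟩
      · have h1 : (fun w : V → Fin d → ℝ => LIC H w l ∧ ∀ p ∈ (∅ : Finset (V × V)), w p.1 ⬝ᵥ w p.2 ≠ 0) =
            fun w => LIC H w l := by
          funext w
          simp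
        rw [h1]
        exact hP2 H l
      · obtain ⟨w, hw, hw2⟩ := hLIC
        exact ⟨w, hw, hw2, fun p hp => absurd hp (notMem_empty p)⟩
    | insert q P hq ih =>
      intro hQ
      obtain ⟨i1, i2⟩ := ih fun p hp => hQ p (mem_insert_of_mem hp)
      have hq2 := hQ q (mem_insert_self _ _)
      have h1 : (fun w : V → Fin d → ℝ => LIC H w l ∧ ∀ p ∈ insert q P, w p.1 ⬝ᵥ w p.2 ≠ 0) =
          fun w => (LIC H w l ∧ ∀ p ∈ P, w p.1 ⬝ᵥ w p.2 ≠ 0) ∧ w q.1 ⬝ᵥ w q.2 ≠ 0 := by
        funext w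
        rw [eq_iff_iff, Finset.forall_mem_insert]
        tauto
      refine ⟨?_, ?_⟩
      · rw [h1]
        exact hP3 _ _ i1 (hP4 q.1 q.2)
      · obtain ⟨w, hw, hw2, hw3⟩ := hI.irr l _ _ i1 (hP4 q.1 q.2) i2 (hpair' q.1 q.2 hq2.1 hq2.2)
        refine ⟨w, hw, hw2.1, fun p hp => ?_⟩
        rw [mem_insert] at hp
        rcases hp with h | h
        · rw [h]; exact hw3
        · exact hw2.2 p h
  obtain ⟨-, w, hw, hw2, hw3⟩ := hall (univ.filter fun p : V × V => p.1 ≠ p.2 ∧ ¬ H.Adj p.1 p.2)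
    fun p hp => (mem_filter.1 hp).2
  exact ⟨l, w, hln, hlm, ⟨hI.orth l w hln hw, hw2⟩, fun i j hij hadj =>
    hw3 (i, j) (mem_filter.2 ⟨mem_univ _, hij, hadj⟩)⟩

end Pool.Agent.Run7.h547.GC
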