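import Pool.Agent.Run7.h207.GC.Iface

set_option autoImplicit false

/-! Piece SUCC of the project GC of helper207: the probability of a success. -/

namespace Pool.Agent.Run7.h547.GC

open Finset
open Pool.Agent.H162R2.AG

theorem t_SUCC : Pool.Agent.Run7.h207.GC.J_BIN → Pool.Agent.Run7.h207.GC.J_SUCC := by
  classical
  intro hBIN C
  obtain ⟨ε, hε, N₀, hN₀⟩ := hBIN (2 * |C|)
  refine ⟨ε / 8, by positivity, N₀ + 4, fun n A i x y T hiA hxA hyA hix hiy hcard hT => ?_⟩
  set B : Finset (Fin n) := ((Aᶜ.erase i).erase x).erase y with hB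
  have hBi : i ∉ B := by simp [hB]
  have hBx : x ∉ B := by simp [hB]
  have hBy : y ∉ B := by simp [hB]
  have hBA : B ⊆ Aᶜ := (erase_subset _ _).trans ((erase_subset _ _).trans (erase_subset _ _))
  have hiA' : i ∈ Aᶜ := mem_compl.2 hiA
  have hxA' : x ∈ Aᶜ := mem_compl.2 hxA
  have hyA' : y ∈ Aᶜ := mem_compl.2 hyA
  have hc1 : (Aᶜ.erase i).card + 1 = (Aᶜ).card := card_erase_add_one hiA'
  have hc2 : ((Aᶜ.erase i).erase x).card + 1 = (Aᶜ.erase i).card :=
    card_erase_add_one (mem_erase.2 ⟨hix.symm, hxA'⟩)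
  have hc3 : B.card + 2 ≤ (Aᶜ).card := by
    have : B.card ≤ ((Aᶜ.erase i).erase x).card := card_le_card (erase_subset _ _)
    omega
  have hc4 : (Aᶜ).card ≤ B.card + 3 := by
    have : ((Aᶜ.erase i).erase x).card ≤ B.card + 1 := by
      rw [hB]
      have := Finset.pred_card_le_card_erase (s := (Aᶜ.erase i).erase x) (a := y)
      omega
    omega
  set N := B.card with hN
  let e : Fin N ↪ Fin n := (B.orderEmbOfFin rfl).toEmbedding
  have he : ∀ k, e k ∈ B := fun k => B.orderEmbOfFin_mem rfl k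
  -- the comparison of the two thresholds
  have hthr : (N : ℝ) / 2 - 2 * |C| * √N ≤ T - 1 := by
    have h1 : ((Aᶜ).card : ℝ) ≤ 4 * N := by
      have : (Aᶜ).card ≤ 4 * N := by omega
      exact_mod_cast this
    have h2 : √((Aᶜ).card : ℝ) ≤ 2 * √N := by
      rw [show (2 : ℝ) * √N = √(4 * N) by
        rw [Real.sqrt_mul (by norm_num), show √(4 : ℝ) = 2 by
          rw [show (4 : ℝ) = 2 ^ 2 by norm_num]; exact Real.sqrt_sq (by norm_num)]]
      exact Real.sqrt_le_sqrt h1
    have h3 : C * √((Aᶜ).card : ℝ) ≤ |C| * (2 * √N) :=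
      (mul_le_mul_of_nonneg_right (le_abs_self C) (Real.sqrt_nonneg _)).trans
        (mul_le_mul_of_nonneg_left h2 (abs_nonneg C))
    have h4 : (N : ℝ) + 2 ≤ ((Aᶜ).card : ℝ) := by exact_mod_cast hc3
    linarith
  have h1 := hN₀ N (by omega)
  have h2 : cnt (fun s : Finset (Fin N) => (s.card : ℝ) ≤ (N : ℝ) / 2 - 2 * |C| * √N) ≤
      cnt (fun s : Finset (Fin n) => s ⊆ Aᶜ ∧ i ∈ s ∧ x ∉ s ∧ y ∉ s ∧ (s.card : ℝ) ≤ T) := by
    unfold cnt
    refine Nat.cast_le.2 (card_le_card_of_injOn (fun s => insert i (s.map e)) (fun s hs => ?_) ?_)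
    · have hs' : (s.card : ℝ) ≤ (N : ℝ) / 2 - 2 * |C| * √N := by
        have := mem_coe.1 hs
        rw [mem_filter] at this
        exact this.2
      have hsub : s.map e ⊆ B := by
        intro z hz
        rw [mem_map] at hz
        obtain ⟨k, -, rfl⟩ := hz
        exact he k
      have hi : i ∉ s.map e := fun h => hBi (hsub h)
      simp only [mem_coe, mem_filter, mem_univ, true_and]
      refine ⟨?_, mem_insert_self _ _, ?_, ?_, ?_⟩
      · exact insert_subset hiA' (hsub.trans hBA)
      · rw [mem_insert, not_or]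
        exact ⟨hix.symm, fun h => hBx (hsub h)⟩
      · rw [mem_insert, not_or]
        exact ⟨hiy.symm, fun h => hBy (hsub h)⟩
      · rw [card_insert_of_notMem hi, card_map]
        push_cast
        linarith
    · intro s _ s' _ h
      have hi : ∀ s : Finset (Fin N), i ∉ s.map e := by
        intro s h
        rw [mem_map] at h
        obtain ⟨k, -, hk⟩ := h
        exact hBi (hk ▸ he k)
      have h' : insert i (s.map e) = insert i (s'.map e) := h
      have h3 : s.map e = s'.map e := by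
        rw [← erase_insert (hi s), ← erase_insert (hi s'), h']
      exact Finset.map_injective e h3
  refine le_trans ?_ (h1.trans h2)
  have h5 : (2 : ℝ) ^ (Aᶜ).card ≤ 2 ^ (N + 3) := pow_le_pow_right₀ (by norm_num) hc4
  rw [pow_add] at h5
  nlinarith

end Pool.Agent.Run7.h547.GC
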